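import Mathlib.AlgebraicGeometry.AffineSpace
import Mathlib.AlgebraicGeometry.Morphisms.ClosedImmersion
import Mathlib.GroupTheory.Finiteness
import Mathlib.RingTheory.Localization.Away.Basic

/-!
# The cohomology of cycle complexes on arithmetic schemes: definitions
-/

set_option autoImplicit false

open CategoryTheory AlgebraicGeometry

universe v

namespace Pool.Agent.X308.F

/-- Groups `H X n i`, for the groups `H^i(X_et, ℤ^c(n))`. -/
structure CycleCohomology where
  /-- the group `H^i(X_et, ℤ^c(n))` -/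
  H : Scheme.{0} → ℤ → ℤ → Type v
  [group : ∀ X n i, AddCommGroup (H X n i)]

attribute [instance] CycleCohomology.group

/-- `X` is an arithmetic scheme: it is separated and of finite type over `Spec ℤ`. -/
def IsArithmetic (X : Scheme.{0}) : Prop :=
  ∃ f : X ⟶ Spec (CommRingCat.of ℤ), IsSeparated f ∧ LocallyOfFiniteType f ∧ QuasiCompact f

variable (M : CycleCohomology.{v})

/-- The exact sequence
`H^(i-1)(U_et, ℤ^c(n)) → H^i(Z_et, ℤ^c(n)) → H^i(X_et, ℤ^c(n)) → H^i(U_et, ℤ^c(n))`, `Z` a closed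
subscheme of `X` and `U` its complement. -/
def LocalizationSequence (n : ℤ) : Prop :=
  ∀ (X Z : Scheme.{0}) (f : Z ⟶ X) (U : X.Opens), IsArithmetic X → IsClosedImmersion f →
    (U : Set X) = (Set.range f)ᶜ → ∀ i : ℤ,
      ∃ (δ : M.H U n (i - 1) →+ M.H Z n i) (a : M.H Z n i →+ M.H X n i)
        (b : M.H X n i →+ M.H U n i), Function.Exact δ a ∧ Function.Exact a b

/-- The exact sequence of Mayer and Vietoris
`H^(i-1)((U ∩ V)_et, ℤ^c(n)) → H^i((U ∪ V)_et, ℤ^c(n)) → H^i(U_et, ℤ^c(n)) × H^i(V_et, ℤ^c(n))` for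
open subschemes `U`, `V` of `X`. -/
def MayerVietoris (n : ℤ) : Prop :=
  ∀ X : Scheme.{0}, IsArithmetic X → ∀ (U V : X.Opens) (i : ℤ),
    ∃ (δ : M.H (U ⊓ V : X.Opens) n (i - 1) →+ M.H (U ⊔ V : X.Opens) n i)
      (r : M.H (U ⊔ V : X.Opens) n i →+ M.H U n i × M.H V n i), Function.Exact δ r

/-- Homotopy invariance: `H^i(𝔸^1_X, ℤ^c(n)) = H^(i+2)(X, ℤ^c(n-1))`. -/
def HomotopyInvariance (n : ℤ) : Prop :=
  ∀ X : Scheme.{0}, IsArithmetic X → ∀ i : ℤ,
    Nonempty (M.H (𝔸(Fin 1; X)) n i ≃+ M.H X (n - 1) (i + 2))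

/-- Known properties of the groups `H^i(X_et, ℤ^c(n))`. -/
structure KnownProperties : Prop where
  empty : ∀ X : Scheme.{0}, IsEmpty X → ∀ (n i : ℤ) (a : M.H X n i), a = 0
  iso : ∀ X Y : Scheme.{0}, Nonempty (X ≅ Y) → ∀ n i : ℤ, Nonempty (M.H X n i ≃+ M.H Y n i)
  localization : ∀ n : ℤ, n < 0 → LocalizationSequence M n
  mayerVietoris : ∀ n : ℤ, n < 0 → MayerVietoris M n
  homotopy : ∀ n : ℤ, n < 0 → HomotopyInvariance M n

/-- Q1: `H^i(X_et, ℤ^c(n))` is finitely generated for all arithmetic schemes `X`, all `n < 0` and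
all `i`. -/
def FiniteGeneration : Prop :=
  ∀ X : Scheme.{0}, IsArithmetic X → ∀ n i : ℤ, n < 0 → AddGroup.FG (M.H X n i)

/-- Q1 in weight `n`. -/
def FiniteGenerationInWeight (n : ℤ) : Prop :=
  ∀ X : Scheme.{0}, IsArithmetic X → ∀ i : ℤ, AddGroup.FG (M.H X n i)

/-- A polynomial of one of the forms `x_i - 1`, `x_i + x_j - x_k` or `x_i x_j - x_k`, where some
of the indices may be equal. -/
def IsElementary {m : ℕ} (f : MvPolynomial (Fin m) ℤ) : Prop :=
  (∃ i, f = MvPolynomial.X i - 1) ∨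
  (∃ i j k, f = MvPolynomial.X i + MvPolynomial.X j - MvPolynomial.X k) ∨
  ∃ i j k, f = MvPolynomial.X i * MvPolynomial.X j - MvPolynomial.X k

/-- The complement of the hypersurfaces `f = 0`, `f` in the list `L`, in the affine space of
dimension `m` over `ℤ`. -/
noncomputable def complement {m : ℕ} (L : List (MvPolynomial (Fin m) ℤ)) : Scheme.{0} :=
  Spec (CommRingCat.of (Localization.Away L.prod))

/-- `H^i(U_et, ℤ^c(n))` is finitely generated for all `i` and all complements `U`, in some affine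
space over `ℤ`, of a finite union of hypersurfaces `f = 0` with `f` elementary. -/
def FiniteGenerationOfComplements (n : ℤ) : Prop :=
  ∀ (m : ℕ) (L : List (MvPolynomial (Fin m) ℤ)), (∀ f ∈ L, IsElementary f) → ∀ i : ℤ,
    AddGroup.FG (M.H (complement L) n i)

end Pool.Agent.X308.F
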