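import Pool.Agent.X308.F.Skolem
import Mathlib.AlgebraicGeometry.Morphisms.FiniteType
import Mathlib.AlgebraicGeometry.Morphisms.FinitePresentation
import Mathlib.AlgebraicGeometry.Morphisms.Separated
import Mathlib.AlgebraicGeometry.Morphisms.Affine
import Mathlib.RingTheory.Noetherian.Basic

/-!
# Reduction to complements of elementary hypersurfaces
-/

set_option autoImplicit false

open CategoryTheory AlgebraicGeometry

universe v

namespace Pool.Agent.X308.F

/-! ### Groups -/

lemma fg_of_exact {A B C : Type v} [AddCommGroup A] [AddCommGroup B] [AddCommGroup C]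
    (f : A →+ B) (g : B →+ C) (h : Function.Exact f g) (hA : AddGroup.FG A)
    (hC : AddGroup.FG C) : AddGroup.FG B := by
  have h1 : Module.Finite ℤ A := Module.Finite.iff_addGroup_fg.2 hA
  have h2 : Module.Finite ℤ C := Module.Finite.iff_addGroup_fg.2 hC
  have h3 : LinearMap.range f.toIntLinearMap = LinearMap.ker g.toIntLinearMap := by
    ext x
    rw [LinearMap.mem_range, LinearMap.mem_ker]
    exact (h x).symm
  have h4 : IsNoetherian ℤ B := isNoetherian_of_range_eq_ker f.toIntLinearMap g.toIntLinearMap h3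
  exact Module.Finite.iff_addGroup_fg.1 inferInstance

lemma fg_of_equiv {A B : Type v} [AddCommGroup A] [AddCommGroup B] (e : A ≃+ B)
    (hA : AddGroup.FG A) : AddGroup.FG B :=
  AddGroup.fg_of_surjective (f := (e : A →+ B)) e.surjective

lemma fg_prod {A B : Type v} [AddCommGroup A] [AddCommGroup B] (hA : AddGroup.FG A)
    (hB : AddGroup.FG B) : AddGroup.FG (A × B) := by
  have h1 : Module.Finite ℤ A := Module.Finite.iff_addGroup_fg.2 hA
  have h2 : Module.Finite ℤ B := Module.Finite.iff_addGroup_fg.2 hB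
  exact Module.Finite.iff_addGroup_fg.1 inferInstance

/-! ### Unions of open subschemes -/

variable {M : CycleCohomology.{v}}

variable (M) in
/-- All cohomology groups of weight `n` are finitely generated. -/
def Good (n : ℤ) (X : Scheme.{0}) : Prop := ∀ i : ℤ, AddGroup.FG (M.H X n i)

lemma Good.iso (hK : KnownProperties M) {n : ℤ} {X Y : Scheme.{0}} (h : Good M n X) (e : X ≅ Y) :
    Good M n Y := by
  intro i
  obtain ⟨e'⟩ := hK.iso X Y ⟨e⟩ n i
  exact fg_of_equiv e' (h i)

lemma good_empty (hK : KnownProperties M) (n : ℤ) (X : Scheme.{0}) (hX : IsEmpty X) :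
    Good M n X := by
  intro i
  have : Subsingleton (M.H X n i) :=
    ⟨fun a b => (hK.empty X hX n i a).trans (hK.empty X hX n i b).symm⟩
  infer_instance

lemma good_sup (hK : KnownProperties M) {n : ℤ} (hn : n < 0) {X : Scheme.{0}}
    (hX : IsArithmetic X) {U V : X.Opens} (hU : Good M n U) (hV : Good M n V)
    (hUV : Good M n (U ⊓ V : X.Opens)) : Good M n (U ⊔ V : X.Opens) := by
  intro i
  obtain ⟨δ, r, h⟩ := hK.mayerVietoris n hn X hX U V i
  exact fg_of_exact δ r h (hUV (i - 1)) (fg_prod (hU i) (hV i))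

/-- The union of a list of open sets. -/
def union {X : Scheme.{0}} (L : List X.Opens) : X.Opens := L.foldr (· ⊔ ·) ⊥

lemma mem_union {X : Scheme.{0}} (L : List X.Opens) (x : X) :
    x ∈ union L ↔ ∃ U ∈ L, x ∈ U := by
  induction L with
  | nil =>
    simp only [union, List.foldr_nil, List.not_mem_nil, false_and, exists_false, iff_false]
    exact fun h => h
  | cons U L ih =>
    have h1 : union (U :: L) = U ⊔ union L := rfl
    rw [h1]
    constructor
    · intro h
      rcases (TopologicalSpace.Opens.mem_sup.1 h) with h | h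
      · exact ⟨U, List.mem_cons_self, h⟩
      · obtain ⟨V, hV, hx⟩ := ih.1 h
        exact ⟨V, List.mem_cons_of_mem _ hV, hx⟩
    · rintro ⟨V, hV, hx⟩
      rcases List.mem_cons.1 hV with rfl | hV
      · exact TopologicalSpace.Opens.mem_sup.2 (Or.inl hx)
      · exact TopologicalSpace.Opens.mem_sup.2 (Or.inr (ih.2 ⟨V, hV, hx⟩))

lemma inf_union {X : Scheme.{0}} (U : X.Opens) (L : List X.Opens) :
    U ⊓ union L = union (L.map (U ⊓ ·)) := by
  induction L with
  | nil => exact inf_bot_eq _
  | cons V L ih =>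
    have h1 : union (V :: L) = V ⊔ union L := rfl
    have h2 : union ((V :: L).map (U ⊓ ·)) = (U ⊓ V) ⊔ union (L.map (U ⊓ ·)) := rfl
    rw [h1, h2, inf_sup_left, ih]

lemma good_union (hK : KnownProperties M) {n : ℤ} (hn : n < 0) {X : Scheme.{0}}
    (hX : IsArithmetic X) (S : X.Opens → Prop) (hinf : ∀ U V, S U → S V → S (U ⊓ V))
    (hS : ∀ U, S U → Good M n U) (k : ℕ) :
    ∀ L : List X.Opens, L.length = k → (∀ U ∈ L, S U) → Good M n (union L) := by
  induction k with
  | zero =>
    intro L hL _
    obtain rfl := List.length_eq_zero_iff.1 hL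
    refine good_empty hK n _ ⟨fun x => ?_⟩
    obtain ⟨x, hx⟩ := x
    exact hx
  | succ k ih =>
    intro L hL h
    obtain ⟨U, L, rfl⟩ : ∃ U L', L = U :: L' := by
      cases L with
      | nil => simp at hL
      | cons U L => exact ⟨U, L, rfl⟩
    have hk : L.length = k := by simpa using hL
    have h1 : S U := h U List.mem_cons_self
    have h2 : ∀ V ∈ L, S V := fun V hV => h V (List.mem_cons_of_mem _ hV)
    change Good M n (U ⊔ union L : X.Opens)
    refine good_sup hK hn hX (hS U h1) (ih L hk h2) ?_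
    rw [inf_union]
    refine ih _ (by simpa using hk) fun V hV => ?_
    obtain ⟨W, hW, rfl⟩ := List.mem_map.1 hV
    exact hinf U W h1 (h2 W hW)

/-! ### Affine schemes -/

lemma arithmetic_spec (R : Type) [CommRing R] (hR : (Int.castRingHom R).FiniteType) :
    IsArithmetic (Spec (CommRingCat.of R)) := by
  refine ⟨Spec.map (CommRingCat.ofHom (Int.castRingHom R)), inferInstance, ?_, inferInstance⟩
  rw [HasRingHomProperty.Spec_iff (P := @LocallyOfFiniteType)]
  exact hR

lemma finiteType_polynomial (m : ℕ) :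
    (Int.castRingHom (MvPolynomial (Fin m) ℤ)).FiniteType := by
  have h1 : (algebraMap ℤ (MvPolynomial (Fin m) ℤ)).FiniteType :=
    RingHom.finiteType_algebraMap.2 (Algebra.FiniteType.of_finitePresentation)
  rwa [RingHom.ext_int (algebraMap ℤ (MvPolynomial (Fin m) ℤ)) (Int.castRingHom _)] at h1

lemma finiteType_away (m : ℕ) (f : MvPolynomial (Fin m) ℤ) :
    (Int.castRingHom (Localization.Away f)).FiniteType := by
  have h1 : (algebraMap (MvPolynomial (Fin m) ℤ) (Localization.Away f)).FiniteType :=
    RingHom.finiteType_algebraMap.2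
      (IsLocalization.finiteType_of_monoid_fg (Submonoid.powers f) _)
  have h2 := h1.comp (finiteType_polynomial m)
  rwa [RingHom.ext_int ((algebraMap (MvPolynomial (Fin m) ℤ) (Localization.Away f)).comp
    (Int.castRingHom _)) (Int.castRingHom _)] at h2

/-- The closed subscheme given by elementary equations. -/
lemma good_quotient (hK : KnownProperties M) {n : ℤ} (hn : n < 0)
    (h : FiniteGenerationOfComplements M n) {m : ℕ} (L : List (MvPolynomial (Fin m) ℤ))
    (hL : ∀ f ∈ L, IsElementary f) :
    Good M n (Spec (CommRingCat.of (MvPolynomial (Fin m) ℤ ⧸ Ideal.span {f | f ∈ L}))) := by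
  have harith : IsArithmetic (Spec (CommRingCat.of (MvPolynomial (Fin m) ℤ))) :=
    arithmetic_spec _ (finiteType_polynomial m)
  let X := Spec (CommRingCat.of (MvPolynomial (Fin m) ℤ))
  let S : X.Opens → Prop := fun U => ∃ L : List (MvPolynomial (Fin m) ℤ),
    (∀ f ∈ L, IsElementary f) ∧ U = PrimeSpectrum.basicOpen L.prod
  have hinf : ∀ U V, S U → S V → S (U ⊓ V) := by
    rintro _ _ ⟨L₁, h₁, rfl⟩ ⟨L₂, h₂, rfl⟩
    refine ⟨L₁ ++ L₂, fun f hf => ?_, ?_⟩
    · rcases List.mem_append.1 hf with hf | hf
      · exact h₁ f hf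
      · exact h₂ f hf
    · rw [List.prod_append]
      exact (PrimeSpectrum.basicOpen_mul _ _).symm
  have hS : ∀ U, S U → Good M n U := by
    rintro _ ⟨L₁, h₁, rfl⟩
    exact Good.iso hK (h m L₁ h₁)
      (basicOpenIsoSpecAway (R := CommRingCat.of (MvPolynomial (Fin m) ℤ)) L₁.prod).symm
  have h1 := good_union hK hn harith S hinf hS _ (L.map fun f => PrimeSpectrum.basicOpen f) rfl
    (by
      intro U hU
      obtain ⟨f, hf, rfl⟩ := List.mem_map.1 hU
      exact ⟨[f], by simpa using hL f hf, by simp⟩)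
  have hX : Good M n X := by
    have h2 := hS ⊤ ⟨[], by simp, by
      rw [List.prod_nil]
      exact PrimeSpectrum.basicOpen_one.symm⟩
    exact Good.iso hK h2 X.topIso
  let φ : MvPolynomial (Fin m) ℤ →+* MvPolynomial (Fin m) ℤ ⧸ Ideal.span {f | f ∈ L} :=
    Ideal.Quotient.mk _
  have hcl : IsClosedImmersion (Spec.map (CommRingCat.ofHom φ)) :=
    IsClosedImmersion.spec_of_surjective _ Ideal.Quotient.mk_surjective
  have hr : ((union (X := X) (L.map fun f => PrimeSpectrum.basicOpen f) : X.Opens) : Set X) =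
      (Set.range (Spec.map (CommRingCat.ofHom φ)))ᶜ := by
    have h3 : Set.range (Spec.map (CommRingCat.ofHom φ)) =
        PrimeSpectrum.zeroLocus (RingHom.ker φ : Set (MvPolynomial (Fin m) ℤ)) :=
      range_comap_of_surjective _ φ Ideal.Quotient.mk_surjective
    rw [h3, Ideal.mk_ker, PrimeSpectrum.zeroLocus_span]
    ext x
    rw [SetLike.mem_coe, mem_union, Set.mem_compl_iff]
    change _ ↔ ¬ ({f | f ∈ L} ⊆ (x.asIdeal : Set (MvPolynomial (Fin m) ℤ)))
    constructor
    · rintro ⟨U, hU, hx⟩ h4
      obtain ⟨f, hf, rfl⟩ := List.mem_map.1 hU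
      exact hx (h4 hf)
    · intro h4
      rw [Set.not_subset] at h4
      obtain ⟨f, hf, hx⟩ := h4
      exact ⟨_, List.mem_map.2 ⟨f, hf, rfl⟩, hx⟩
  intro i
  obtain ⟨δ, a, b, h5, -⟩ := hK.localization n hn X _ (Spec.map (CommRingCat.ofHom φ)) _ harith
    hcl hr i
  exact fg_of_exact δ a h5 (h1 (i - 1)) (hX i)

lemma good_spec (hK : KnownProperties M) {n : ℤ} (hn : n < 0)
    (h : FiniteGenerationOfComplements M n) (B : Type) [CommRing B]
    (hB : (Int.castRingHom B).FiniteType) : Good M n (Spec (CommRingCat.of B)) := by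
  obtain ⟨m, L, hL, ⟨e⟩⟩ := exists_presentation B (RingHom.finiteType_algebraMap.1 hB)
  refine Good.iso hK (good_quotient hK hn h L hL) ?_
  exact Scheme.Spec.mapIso (e.toCommRingCatIso).op

/-! ### All arithmetic schemes -/

lemma finiteType_of_affineOpen {X : Scheme.{0}} (f : X ⟶ Spec (CommRingCat.of ℤ))
    [LocallyOfFiniteType f] (U : X.Opens) (hU : IsAffineOpen U) :
    (Int.castRingHom Γ(X, U)).FiniteType := by
  have h1 : LocallyOfFiniteType (hU.fromSpec ≫ f) := inferInstance
  obtain ⟨φ, hφ⟩ := Spec.map_surjective (hU.fromSpec ≫ f)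
  rw [← hφ, HasRingHomProperty.Spec_iff (P := @LocallyOfFiniteType)] at h1
  have h2 : φ.hom = Int.castRingHom Γ(X, U) := RingHom.ext_int _ _
  rw [h2] at h1
  exact h1

theorem good_of_arithmetic (hK : KnownProperties M) {n : ℤ} (hn : n < 0)
    (h : FiniteGenerationOfComplements M n) (X : Scheme.{0}) (hX : IsArithmetic X) :
    Good M n X := by
  obtain ⟨f, hf, hft, hfq⟩ := id hX
  have hc : CompactSpace X := QuasiCompact.compactSpace_of_compactSpace f
  have hinf : ∀ U V : X.Opens, IsAffineOpen U → IsAffineOpen V → IsAffineOpen (U ⊓ V) :=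
    fun U V hU hV => isAffineHom_diagonal_iff.mp
      (inferInstance : IsAffineHom (Limits.pullback.diagonal f)) ⊤
      (isAffineOpen_top _) U (by simp) V (by simp) hU hV
  obtain ⟨s, hs, hs'⟩ := (isCompact_and_isOpen_iff_finite_and_eq_biUnion_affineOpens
    (U := (Set.univ : Set X))).1 ⟨isCompact_univ, isOpen_univ⟩
  have h1 := good_union hK hn hX (fun U => IsAffineOpen U) hinf
    (fun U hU => Good.iso hK (good_spec hK hn h _ (finiteType_of_affineOpen f U hU))
      hU.isoSpec.symm) _ (hs.toFinset.toList.map fun U => U.1) rfl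
    (by
      intro U hU
      obtain ⟨V, -, rfl⟩ := List.mem_map.1 hU
      exact V.2)
  have h2 : union (hs.toFinset.toList.map fun U => U.1) = (⊤ : X.Opens) := by
    rw [eq_top_iff]
    intro x _
    rw [mem_union]
    have hx : x ∈ (Set.univ : Set X) := trivial
    rw [hs', Set.mem_iUnion₂] at hx
    obtain ⟨V, hV, hx⟩ := hx
    exact ⟨V.1, List.mem_map.2 ⟨V, by simpa using hV, rfl⟩, hx⟩
  rw [h2] at h1
  exact Good.iso hK h1 X.topIso

/-- **Q1 in weight `n`**: it is enough to consider complements of elementary hypersurfaces. -/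
theorem inWeight_iff (hK : KnownProperties M) {n : ℤ} (hn : n < 0) :
    FiniteGenerationInWeight M n ↔ FiniteGenerationOfComplements M n := by
  constructor
  · intro h m L _ i
    exact h _ (arithmetic_spec _ (finiteType_away m _)) i
  · intro h X hX i
    exact good_of_arithmetic hK hn h X hX i

lemma arithmetic_affineSpace {X : Scheme.{0}} (hX : IsArithmetic X) :
    IsArithmetic (𝔸(Fin 1; X)) := by
  obtain ⟨f, hf, hft, hfq⟩ := hX
  exact ⟨(𝔸(Fin 1; X) ↘ X) ≫ f, inferInstance, inferInstance, inferInstance⟩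

theorem fg_iff (hK : KnownProperties M) :
    FiniteGeneration M ↔ FiniteGenerationOfComplements M (-1) := by
  rw [← inWeight_iff hK (by norm_num)]
  constructor
  · intro h X hX i
    exact h X hX (-1) i (by norm_num)
  · intro h
    have key : ∀ r : ℕ, FiniteGenerationInWeight M (-1 - r) := by
      intro r
      induction r with
      | zero =>
        intro X hX i
        simpa using h X hX i
      | succ r ih =>
        intro X hX i
        obtain ⟨e⟩ := hK.homotopy (-1 - r) (by omega) X hX (i - 2)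
        have h1 := fg_of_equiv e (ih _ (arithmetic_affineSpace hX) (i - 2))
        have e1 : (-1 : ℤ) - ((r + 1 : ℕ) : ℤ) = -1 - r - 1 := by
          push_cast
          ring
        have e2 : i - 2 + 2 = i := by ring
        rw [e1]
        rw [e2] at h1
        exact h1
    intro X hX n i hn
    obtain ⟨r, rfl⟩ : ∃ r : ℕ, n = -1 - r := ⟨(-1 - n).toNat, by omega⟩
    exact key r X hX i

end Pool.Agent.X308.F
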