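import Pool.Agent.X308.F.Defs
import Mathlib.RingTheory.Polynomial.Basic
import Mathlib.Data.Set.Finite.Lattice

/-!
# Every finitely generated commutative ring has a presentation with elementary relations
-/

set_option autoImplicit false

namespace Pool.Agent.X308.F

open MvPolynomial

section Rigid

variable {s : ℕ}

/-- A function on polynomials which is compatible with the sums and products inside `T`. -/
def IsCompatible (T : Finset (MvPolynomial (Fin s) ℤ)) {C : Type} [CommRing C]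
    (φ : MvPolynomial (Fin s) ℤ → C) : Prop :=
  φ 1 = 1 ∧ (∀ a ∈ T, ∀ b ∈ T, a + b ∈ T → φ a + φ b = φ (a + b)) ∧
    ∀ a ∈ T, ∀ b ∈ T, a * b ∈ T → φ a * φ b = φ (a * b)

/-- `T` contains `0`, `1`, `-1` and the variables, and every compatible function on `T` is given by a
ring homomorphism. -/
def IsRigid (T : Finset (MvPolynomial (Fin s) ℤ)) : Prop :=
  (0 ∈ T ∧ 1 ∈ T ∧ -1 ∈ T ∧ ∀ i, X i ∈ T) ∧
    ∀ (C : Type) [CommRing C] (φ : MvPolynomial (Fin s) ℤ → C), IsCompatible T φ →
      ∀ t ∈ T, φ t = eval₂Hom (Int.castRingHom C) (fun i => φ (X i)) t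

lemma IsCompatible.mono {T T' : Finset (MvPolynomial (Fin s) ℤ)} (h : T ⊆ T') {C : Type}
    [CommRing C] {φ : MvPolynomial (Fin s) ℤ → C} (hφ : IsCompatible T' φ) : IsCompatible T φ :=
  ⟨hφ.1, fun a ha b hb hab => hφ.2.1 a (h ha) b (h hb) (h hab),
    fun a ha b hb hab => hφ.2.2 a (h ha) b (h hb) (h hab)⟩

open Classical in
lemma exists_base : ∃ T : Finset (MvPolynomial (Fin s) ℤ), IsRigid T := by
  refine ⟨{0, 1, -1} ∪ Finset.univ.image X, ⟨by simp, by simp, by simp, fun i => by simp⟩, ?_⟩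
  intro C _ φ ⟨h1, h2, _⟩ t ht
  have h0 : φ 0 = 0 := by
    have := h2 0 (by simp) 0 (by simp) (by simp)
    rw [add_zero] at this
    exact add_eq_left.1 this
  have hn : φ (-1) = -1 := by
    have := h2 (-1) (by simp) 1 (by simp) (by simp)
    rw [neg_add_cancel, h0, h1] at this
    exact eq_neg_of_add_eq_zero_left this
  simp only [Finset.mem_union, Finset.mem_insert, Finset.mem_singleton, Finset.mem_image,
    Finset.mem_univ, true_and] at ht
  rcases ht with (rfl | rfl | rfl) | ⟨i, rfl⟩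
  · rw [h0, map_zero]
  · rw [h1, map_one]
  · rw [hn, map_neg, map_one]
  · rw [coe_eval₂Hom, eval₂_X]

open Classical in
lemma IsRigid.union {T T' : Finset (MvPolynomial (Fin s) ℤ)} (h : IsRigid T) (h' : IsRigid T') :
    IsRigid (T ∪ T') := by
  obtain ⟨⟨h0, h1, h2, h3⟩, h4⟩ := h
  refine ⟨⟨Finset.mem_union_left _ h0, Finset.mem_union_left _ h1, Finset.mem_union_left _ h2,
    fun i => Finset.mem_union_left _ (h3 i)⟩, ?_⟩
  intro C _ φ hφ t ht
  rcases Finset.mem_union.1 ht with ht | ht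
  · exact h4 C φ (hφ.mono Finset.subset_union_left) t ht
  · exact h'.2 C φ (hφ.mono Finset.subset_union_right) t ht

open Classical in
lemma IsRigid.insert_add {T : Finset (MvPolynomial (Fin s) ℤ)} (h : IsRigid T)
    {a b : MvPolynomial (Fin s) ℤ} (ha : a ∈ T) (hb : b ∈ T) : IsRigid (insert (a + b) T) := by
  obtain ⟨⟨h0, h1, h2, h3⟩, h4⟩ := h
  refine ⟨⟨Finset.mem_insert_of_mem h0, Finset.mem_insert_of_mem h1, Finset.mem_insert_of_mem h2,
    fun i => Finset.mem_insert_of_mem (h3 i)⟩, ?_⟩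
  intro C _ φ hφ t ht
  have h5 := h4 C φ (hφ.mono (Finset.subset_insert _ _))
  rcases Finset.mem_insert.1 ht with rfl | ht
  · rw [← hφ.2.1 a (Finset.mem_insert_of_mem ha) b (Finset.mem_insert_of_mem hb)
      (Finset.mem_insert_self _ _), map_add, h5 a ha, h5 b hb]
  · exact h5 t ht

open Classical in
lemma IsRigid.insert_mul {T : Finset (MvPolynomial (Fin s) ℤ)} (h : IsRigid T)
    {a b : MvPolynomial (Fin s) ℤ} (ha : a ∈ T) (hb : b ∈ T) : IsRigid (insert (a * b) T) := by
  obtain ⟨⟨h0, h1, h2, h3⟩, h4⟩ := h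
  refine ⟨⟨Finset.mem_insert_of_mem h0, Finset.mem_insert_of_mem h1, Finset.mem_insert_of_mem h2,
    fun i => Finset.mem_insert_of_mem (h3 i)⟩, ?_⟩
  intro C _ φ hφ t ht
  have h5 := h4 C φ (hφ.mono (Finset.subset_insert _ _))
  rcases Finset.mem_insert.1 ht with rfl | ht
  · rw [← hφ.2.2 a (Finset.mem_insert_of_mem ha) b (Finset.mem_insert_of_mem hb)
      (Finset.mem_insert_self _ _), map_mul, h5 a ha, h5 b hb]
  · exact h5 t ht

open Classical in
lemma exists_rigid_add {f g : MvPolynomial (Fin s) ℤ} (hf : ∃ T, IsRigid T ∧ f ∈ T)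
    (hg : ∃ T, IsRigid T ∧ g ∈ T) : ∃ T, IsRigid T ∧ f + g ∈ T := by
  obtain ⟨T, hT, hf⟩ := hf
  obtain ⟨T', hT', hg⟩ := hg
  exact ⟨_, (hT.union hT').insert_add (Finset.mem_union_left _ hf) (Finset.mem_union_right _ hg),
    Finset.mem_insert_self _ _⟩

open Classical in
lemma exists_rigid_mul {f g : MvPolynomial (Fin s) ℤ} (hf : ∃ T, IsRigid T ∧ f ∈ T)
    (hg : ∃ T, IsRigid T ∧ g ∈ T) : ∃ T, IsRigid T ∧ f * g ∈ T := by
  obtain ⟨T, hT, hf⟩ := hf
  obtain ⟨T', hT', hg⟩ := hg
  exact ⟨_, (hT.union hT').insert_mul (Finset.mem_union_left _ hf) (Finset.mem_union_right _ hg),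
    Finset.mem_insert_self _ _⟩

/-- Every polynomial lies in a rigid set. -/
lemma exists_rigid_mem (g : MvPolynomial (Fin s) ℤ) : ∃ T, IsRigid T ∧ g ∈ T := by
  obtain ⟨T, hT⟩ := exists_base (s := s)
  induction g using MvPolynomial.induction_on with
  | C a =>
    induction a using Int.induction_on with
    | zero => exact ⟨T, hT, by simpa using hT.1.1⟩
    | succ i ih =>
      have := exists_rigid_add ih ⟨T, hT, hT.1.2.1⟩
      simpa using this
    | pred i ih =>
      have := exists_rigid_add ih ⟨T, hT, hT.1.2.2.1⟩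
      simpa [sub_eq_add_neg] using this
  | add p q hp hq => exact exists_rigid_add hp hq
  | mul_X p i hp => exact exists_rigid_mul hp ⟨T, hT, hT.1.2.2.2 i⟩

open Classical in
lemma exists_rigid_subset (G : Finset (MvPolynomial (Fin s) ℤ)) : ∃ T, IsRigid T ∧ G ⊆ T := by
  induction G using Finset.induction_on with
  | empty =>
    obtain ⟨T, hT⟩ := exists_base (s := s)
    exact ⟨T, hT, Finset.empty_subset _⟩
  | insert a G _ ih =>
    obtain ⟨T, hT, h1⟩ := ih
    obtain ⟨T', hT', h2⟩ := exists_rigid_mem a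
    refine ⟨T ∪ T', hT.union hT', ?_⟩
    intro x hx
    rcases Finset.mem_insert.1 hx with rfl | hx
    · exact Finset.mem_union_right _ h2
    · exact Finset.mem_union_left _ (h1 hx)

end Rigid

section Presentation

variable {s : ℕ} (T G : Finset (MvPolynomial (Fin s) ℤ))

/-- The variable of index `t`. -/
noncomputable def var (t : T) : MvPolynomial (Fin T.card) ℤ := X (T.equivFin t)

/-- The relations between the variables. -/
def relations : Set (MvPolynomial (Fin T.card) ℤ) :=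
  {f | (∃ t : T, t.1 = 1 ∧ f = var T t - 1) ∨
    (∃ a b c : T, a.1 + b.1 = c.1 ∧ f = var T a + var T b - var T c) ∨
    (∃ a b c : T, a.1 * b.1 = c.1 ∧ f = var T a * var T b - var T c) ∨
    ∃ t : T, t.1 ∈ G ∧ f = var T t + var T t - var T t}

lemma relations_finite : (relations T G).Finite := by
  have h1 : (relations T G) ⊆
      (Set.range fun t : T => var T t - 1) ∪
      (Set.range fun p : T × T × T => var T p.1 + var T p.2.1 - var T p.2.2) ∪
      (Set.range fun p : T × T × T => var T p.1 * var T p.2.1 - var T p.2.2) := by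
    rintro f (⟨t, -, rfl⟩ | ⟨a, b, c, -, rfl⟩ | ⟨a, b, c, -, rfl⟩ | ⟨t, -, rfl⟩)
    · exact Or.inl (Or.inl ⟨t, rfl⟩)
    · exact Or.inl (Or.inr ⟨(a, b, c), rfl⟩)
    · exact Or.inr ⟨(a, b, c), rfl⟩
    · exact Or.inl (Or.inr ⟨(t, t, t), rfl⟩)
  exact (((Set.finite_range _).union (Set.finite_range _)).union (Set.finite_range _)).subset h1

lemma relations_elementary {f : MvPolynomial (Fin T.card) ℤ} (hf : f ∈ relations T G) :
    IsElementary f := by
  rcases hf with ⟨t, -, rfl⟩ | ⟨a, b, c, -, rfl⟩ | ⟨a, b, c, -, rfl⟩ | ⟨t, -, rfl⟩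
  · exact Or.inl ⟨_, rfl⟩
  · exact Or.inr (Or.inl ⟨_, _, _, rfl⟩)
  · exact Or.inr (Or.inr ⟨_, _, _, rfl⟩)
  · exact Or.inr (Or.inl ⟨_, _, _, rfl⟩)

/-- The ring with the elementary relations. -/
abbrev Pres : Type := MvPolynomial (Fin T.card) ℤ ⧸ Ideal.span (relations T G)

/-- The quotient of the polynomial ring. -/
abbrev Quot' : Type := MvPolynomial (Fin s) ℤ ⧸ Ideal.span (G : Set (MvPolynomial (Fin s) ℤ))

/-- The map from the ring with the elementary relations. -/
noncomputable def alpha : Pres T G →+* Quot' G :=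
  Ideal.Quotient.lift _
    (eval₂Hom (Int.castRingHom _) fun i => Ideal.Quotient.mk _ (T.equivFin.symm i).1) (by
    have hv : ∀ t : T, eval₂Hom (Int.castRingHom (Quot' G))
        (fun i => Ideal.Quotient.mk _ (T.equivFin.symm i).1) (var T t) =
          Ideal.Quotient.mk _ t.1 := by
      intro t
      rw [var, coe_eval₂Hom, eval₂_X, Equiv.symm_apply_apply]
    intro f hf
    rw [← RingHom.mem_ker]
    refine (Ideal.span_le (I := RingHom.ker _)).2 ?_ hf
    rintro f (⟨t, ht, rfl⟩ | ⟨a, b, c, h, rfl⟩ | ⟨a, b, c, h, rfl⟩ | ⟨t, ht, rfl⟩)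
    · rw [SetLike.mem_coe, RingHom.mem_ker, map_sub, hv, map_one, ht, map_one, sub_self]
    · rw [SetLike.mem_coe, RingHom.mem_ker, map_sub, map_add, hv, hv, hv, ← map_add, h, sub_self]
    · rw [SetLike.mem_coe, RingHom.mem_ker, map_sub, map_mul, hv, hv, hv, ← map_mul, h, sub_self]
    · rw [SetLike.mem_coe, RingHom.mem_ker, map_sub, map_add, hv, add_sub_cancel_right,
        Ideal.Quotient.eq_zero_iff_mem]
      exact Ideal.subset_span ht)

lemma alpha_var (t : T) : alpha T G (Ideal.Quotient.mk _ (var T t)) =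
    Ideal.Quotient.mk _ t.1 := by
  rw [alpha, Ideal.Quotient.lift_mk, var, coe_eval₂Hom, eval₂_X, Equiv.symm_apply_apply]

open Classical in
/-- The compatible function. -/
noncomputable def phi (r : MvPolynomial (Fin s) ℤ) : Pres T G :=
  if h : r ∈ T then Ideal.Quotient.mk _ (var T ⟨r, h⟩) else 0

lemma phi_mem (t : T) : phi T G t.1 = Ideal.Quotient.mk _ (var T t) := by
  rw [phi, dif_pos t.2]

lemma phi_compatible (h1 : (1 : MvPolynomial (Fin s) ℤ) ∈ T) : IsCompatible T (phi T G) := by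
  refine ⟨?_, ?_, ?_⟩
  · rw [phi_mem T G ⟨1, h1⟩, ← map_one (Ideal.Quotient.mk (Ideal.span (relations T G))),
      Ideal.Quotient.eq]
    exact Ideal.subset_span (Or.inl ⟨⟨1, h1⟩, rfl, rfl⟩)
  · intro a ha b hb hab
    rw [phi_mem T G ⟨a, ha⟩, phi_mem T G ⟨b, hb⟩, phi_mem T G ⟨a + b, hab⟩, ← map_add,
      Ideal.Quotient.eq]
    exact Ideal.subset_span (Or.inr (Or.inl ⟨_, _, _, rfl, rfl⟩))
  · intro a ha b hb hab
    rw [phi_mem T G ⟨a, ha⟩, phi_mem T G ⟨b, hb⟩, phi_mem T G ⟨a * b, hab⟩, ← map_mul,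
      Ideal.Quotient.eq]
    exact Ideal.subset_span (Or.inr (Or.inr (Or.inl ⟨_, _, _, rfl, rfl⟩)))

/-- The ring homomorphism in the other direction, before passing to the quotient. -/
noncomputable def beta₀ : MvPolynomial (Fin s) ℤ →+* Pres T G :=
  eval₂Hom (Int.castRingHom _) fun i => phi T G (X i)

variable {T G}

lemma beta₀_eq (hT : IsRigid T) (t : T) :
    beta₀ T G t.1 = Ideal.Quotient.mk _ (var T t) := by
  rw [← phi_mem]
  exact (hT.2 _ (phi T G) (phi_compatible T G hT.1.2.1) t.1 t.2).symm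

/-- The ring homomorphism in the other direction. -/
noncomputable def beta (hT : IsRigid T) (hG : G ⊆ T) : Quot' G →+* Pres T G :=
  Ideal.Quotient.lift _ (beta₀ T G) (by
    intro f hf
    rw [← RingHom.mem_ker]
    refine (Ideal.span_le (I := RingHom.ker _)).2 ?_ hf
    intro g hg
    rw [SetLike.mem_coe, RingHom.mem_ker, beta₀_eq hT ⟨g, hG hg⟩, Ideal.Quotient.eq_zero_iff_mem]
    refine Ideal.subset_span (Or.inr (Or.inr (Or.inr ⟨⟨g, hG hg⟩, hg, ?_⟩)))
    rw [add_sub_cancel_right])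

lemma alpha_comp_beta (hT : IsRigid T) (hG : G ⊆ T) :
    (alpha T G).comp (beta hT hG) = RingHom.id _ := by
  apply Ideal.Quotient.ringHom_ext
  apply MvPolynomial.ringHom_ext
  · intro a
    simp
  · intro i
    have h1 := beta₀_eq (G := G) hT ⟨X i, hT.1.2.2.2 i⟩
    rw [RingHom.comp_apply, RingHom.comp_apply, beta, Ideal.Quotient.lift_mk, h1, alpha_var]
    rfl

lemma beta_comp_alpha (hT : IsRigid T) (hG : G ⊆ T) :
    (beta hT hG).comp (alpha T G) = RingHom.id _ := by
  apply Ideal.Quotient.ringHom_ext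
  apply MvPolynomial.ringHom_ext
  · intro a
    simp
  · intro j
    obtain ⟨t, rfl⟩ : ∃ t, j = T.equivFin t := ⟨T.equivFin.symm j, by simp⟩
    have h1 := alpha_var T G t
    rw [var] at h1
    rw [RingHom.comp_apply, RingHom.comp_apply, h1, beta, Ideal.Quotient.lift_mk,
      beta₀_eq hT t, var]
    rfl

/-- The two rings are isomorphic. -/
noncomputable def presEquiv (hT : IsRigid T) (hG : G ⊆ T) : Quot' G ≃+* Pres T G :=
  RingEquiv.ofRingHom (beta hT hG) (alpha T G) (beta_comp_alpha hT hG) (alpha_comp_beta hT hG)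

end Presentation

/-- Every finitely generated commutative ring has a presentation with finitely many elementary
relations. -/
theorem exists_presentation (B : Type) [CommRing B] (hB : Algebra.FiniteType ℤ B) :
    ∃ (m : ℕ) (L : List (MvPolynomial (Fin m) ℤ)), (∀ f ∈ L, IsElementary f) ∧
      Nonempty (B ≃+* MvPolynomial (Fin m) ℤ ⧸ Ideal.span {f | f ∈ L}) := by
  obtain ⟨s, π, hπ⟩ := Algebra.FiniteType.iff_quotient_mvPolynomial''.1 hB
  obtain ⟨G, hG⟩ : (RingHom.ker π.toRingHom).FG := IsNoetherian.noetherian _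
  obtain ⟨T, hT, hGT⟩ := exists_rigid_subset G
  refine ⟨T.card, (relations_finite T G).toFinset.toList, fun f hf => ?_, ?_⟩
  · apply relations_elementary T G
    simpa using hf
  · have h1 : {f | f ∈ (relations_finite T G).toFinset.toList} = relations T G := by
      ext f
      simp
    rw [h1]
    have e1 : (MvPolynomial (Fin s) ℤ ⧸ RingHom.ker π.toRingHom) ≃+* B :=
      RingHom.quotientKerEquivOfSurjective hπ
    have e2 : (MvPolynomial (Fin s) ℤ ⧸ RingHom.ker π.toRingHom) ≃+* Quot' G :=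
      Ideal.quotEquivOfEq hG.symm
    exact ⟨(e1.symm.trans e2).trans (presEquiv hT hGT)⟩

end Pool.Agent.X308.F
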